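import Pool.Agent.NGR.Main

/-!
Linear edge bound for topological graphs without natural grids
(conjecture of Ackerman, Fox, Pach and Suk).
-/

namespace Pool.Agent.Results.MP_b77b0a_co.NaturalGridsLinear

/-- For all positive integers `k`, `l` there is a constant `c` such that every topological graph
(finite graph without loops and multiple edges, drawn in the plane `ℂ`, edges are Jordan arcs,
simple or not) on `n` vertices without natural `(k,l)`-grid has at most `c * n` edges. -/
theorem result : ∀ k l : ℕ, 1 ≤ k → 1 ≤ l → ∃ c : ℝ, ∀ (V : Type) [Fintype V]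
    (T : NGR.TopGraph V), ¬ T.NaturalGrid k l →
      (T.G.edgeSet.ncard : ℝ) ≤ c * (Fintype.card V : ℝ) :=
  fun k l hk hl => NGR.main k l hk hl

end Pool.Agent.Results.MP_b77b0a_co.NaturalGridsLinear
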